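import Mathlib
import Pool.Agent.V1119.PP.Words

/-!
# Shpilrain's question: partially positive words need not be potentially positive

For every rank `r ≥ 3` there is a word of the free group `F_r` that is partially positive (one of
the generators occurs in its reduced form, but the inverse of this generator does not) and that no
automorphism of `F_r` maps to a positive word.
-/

set_option autoImplicit false

namespace Pool.Agent.Results.MP_bbb74b_al.NotPotentiallyPositive

open FreeGroup

variable {X : Type} [DecidableEq X]

/-- A word is positive if all letters of its reduced form are generators (no inverse of a generator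
occurs). -/
def Positive (w : FreeGroup X) : Prop :=
  ∀ x : X, (x, false) ∉ w.toWord

/-- A word is partially positive if some generator `a` occurs in its reduced form while `a⁻¹` does
not. -/
def PartiallyPositive (w : FreeGroup X) : Prop :=
  ∃ a : X, (a, true) ∈ w.toWord ∧ (a, false) ∉ w.toWord

/-- A word is potentially positive if some automorphism of the free group maps it to a positive
word. -/
def PotentiallyPositive (w : FreeGroup X) : Prop :=
  ∃ φ : FreeGroup X ≃* FreeGroup X, Positive (φ w)

/-- the reduced form of the image under an injective renaming of the generators -/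
theorem toWord_map {Y Z : Type} [DecidableEq Y] [DecidableEq Z] (e : Y ≃ Z) (g : FreeGroup Y) :
    (freeGroupCongr e g).toWord = g.toWord.map (fun x => (e x.1, x.2)) := by
  have h1 : freeGroupCongr e g = mk (g.toWord.map (fun x => (e x.1, x.2))) := by
    conv_lhs => rw [← mk_toWord (x := g)]
    rfl
  rw [h1, toWord_mk]
  apply IsReduced.reduce_eq
  have h := isReduced_toWord (x := g)
  unfold FreeGroup.IsReduced at *
  rw [List.isChain_map]
  refine h.imp ?_
  intro a b hab h
  exact hab (e.injective h)

open Pool.Agent.V1119.PP in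
theorem option_case (κ : Type) [DecidableEq κ] [Fintype κ] [Nontrivial κ] :
    ∃ w : FreeGroup (Option κ), PartiallyPositive w ∧ ¬ PotentiallyPositive w := by
  obtain ⟨k1, k2, hk⟩ := exists_pair_ne κ
  obtain ⟨M, hM, hM2⟩ := exists_universal (α := κ)
  have hne : M ≠ [] := by
    rintro rfl
    have := hM2 (k1, true) (k1, true) (by simp [FreeGroup.IsReduced])
    simp at this
  let x : Fin 3 → κ × Bool := ![(k1, true), (k1, false), (k2, true)]
  have hx : Function.Injective x := by
    intro i j hij
    fin_cases i <;> fin_cases j <;> simp_all [x]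
  choose U h1 h2 h3 using fun i => exists_word (x i) M hM hne
  refine ⟨Wc (U 0) (U 1) (U 2), ⟨none, ?_, ?_⟩, ?_⟩
  · rw [← mk_lst, toWord_mk, (cyc_lst _ _ _).isReduced.reduce_eq]
    simp [lst, A]
  · rw [← mk_lst, toWord_mk, (cyc_lst _ _ _).isReduced.reduce_eq]
    intro h
    exact noA'_lst _ _ _ _ h rfl
  · rintro ⟨φ, hφ⟩
    refine not_potpos (WW U) (rich U x hx M hM2 h1 h2 h3) (WW_closed U)
      (Wc (U 0) (U 1) (U 2)) ?_ φ ?_
    · refine ⟨1, 1, ?_⟩
      simp only [one_mul, mul_one]
      exact IsConj.refl _
    · rintro ⟨y, b⟩ hy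
      cases b
      · exact absurd hy (hφ y)
      · rfl

/-- **Main result.** For every rank `r ≥ 3` there is a partially positive word of `F_r` which is
not potentially positive. -/
theorem result (r : ℕ) (hr : 3 ≤ r) :
    ∃ w : FreeGroup (Fin r), PartiallyPositive w ∧ ¬ PotentiallyPositive w := by
  obtain ⟨m, rfl⟩ : ∃ m, r = m + 1 := ⟨r - 1, by omega⟩
  have : Nontrivial (Fin m) := Fin.nontrivial_iff_two_le.mpr (by omega)
  obtain ⟨w, ⟨a, ha1, ha2⟩, hw⟩ := option_case (Fin m)
  let e : Option (Fin m) ≃ Fin (m + 1) := (finSuccEquiv m).symm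
  refine ⟨freeGroupCongr e w, ⟨e a, ?_, ?_⟩, ?_⟩
  · rw [toWord_map]
    exact List.mem_map.mpr ⟨(a, true), ha1, rfl⟩
  · rw [toWord_map]
    intro h
    obtain ⟨⟨y, b⟩, hy, hyb⟩ := List.mem_map.mp h
    simp only [Prod.mk.injEq, EmbeddingLike.apply_eq_iff_eq] at hyb
    obtain ⟨rfl, rfl⟩ := hyb
    exact ha2 hy
  · rintro ⟨φ, hφ⟩
    apply hw
    refine ⟨((freeGroupCongr e).trans φ).trans (freeGroupCongr e).symm, ?_⟩
    intro y hy
    apply hφ (e y)
    have h1 : φ (freeGroupCongr e w) = freeGroupCongr e
        ((((freeGroupCongr e).trans φ).trans (freeGroupCongr e).symm) w) :=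
      ((freeGroupCongr e).apply_symm_apply _).symm
    rw [h1, toWord_map]
    exact List.mem_map.mpr ⟨(y, false), hy, rfl⟩

end Pool.Agent.Results.MP_bbb74b_al.NotPotentiallyPositive
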